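import Mathlib
import Pool.Agent.H130R4.DA6

set_option autoImplicit false

namespace Pool.Agent.Results.MP_5decda_an.DaugavetProjTensor

open Pool.Agent.H130R4.DA

universe u v w

/-- If `X` is an `L`-embedded Banach space (real or complex) with the Daugavet property, `Y` is a
nonzero Banach space, and `X**` or `Y` has the metric approximation property, then the completed
projective tensor product of `X` and `Y` has the Daugavet property. -/
theorem result (𝕜 : Type w) [RCLike 𝕜]
    (X : Type u) [NormedAddCommGroup X] [NormedSpace 𝕜 X] [CompleteSpace X]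
    (Y : Type v) [NormedAddCommGroup Y] [NormedSpace 𝕜 Y] [CompleteSpace Y] [Nontrivial Y]
    (hL : LEmbedded 𝕜 X) (hD : DaugavetProperty 𝕜 X)
    (hM : MetricApproximationProperty 𝕜 (DualSpace 𝕜 (DualSpace 𝕜 X)) ∨
      MetricApproximationProperty 𝕜 Y) :
    DaugavetProperty 𝕜 (ProjectiveTensorProduct 𝕜 X Y) :=
  main_daugavet hD hL hM

end Pool.Agent.Results.MP_5decda_an.DaugavetProjTensor
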